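import Pool.Agent.X127.NR.Pert

set_option autoImplicit false

open Finset Filter Topology
open Pool.Agent Pool.Agent.X127.NR

namespace Pool.Agent.Results.MP_d1aba8_pr.GeneralChainsNoTypicalCutoff

noncomputable section

/-- `Q` is the generator of an irreducible continuous-time chain on `V` with stationary
distribution `π`. -/
structure IsChain {V : Type} [Fintype V] [DecidableEq V] (Q : Matrix V V ℝ) (π : V → ℝ) :
    Prop where
  rate_nonneg : ∀ x y, x ≠ y → 0 ≤ Q x y
  row_zero : ∀ x, ∑ y, Q x y = 0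
  irreducible : ∀ x y, Relation.ReflTransGen (fun u v => u ≠ v ∧ 0 < Q u v) x y
  pi_nonneg : ∀ x, 0 ≤ π x
  pi_sum : ∑ x, π x = 1
  stationary : ∀ y, ∑ x, π x * Q x y = 0

/-- Detailed balance. -/
def Reversible {V : Type} [Fintype V] [DecidableEq V] (Q : Matrix V V ℝ) (π : V → ℝ) : Prop :=
  ∀ x y, π x * Q x y = π y * Q y x

/-- Law of `X_t` under `P_x`: the row `x` of `e^{tQ}`. -/
def law {V : Type} [Fintype V] [DecidableEq V] (Q : Matrix V V ℝ) (t : ℝ) (x y : V) : ℝ :=
  NormedSpace.exp (t • Q) x y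

/-- `d_x(t) = ‖P_x(X_t ∈ ·) - π‖`. -/
def d {V : Type} [Fintype V] [DecidableEq V] (Q : Matrix V V ℝ) (π : V → ℝ) (x : V) (t : ℝ) : ℝ :=
  (1 / 2 : ℝ) * ∑ y, |law Q t x y - π y|

/-- `τ_x = inf {t ≥ 0 : d_x(t) ≤ 1/4}`. -/
def tau {V : Type} [Fintype V] [DecidableEq V] (Q : Matrix V V ℝ) (π : V → ℝ) (x : V) : ℝ :=
  sInf {t : ℝ | 0 ≤ t ∧ d Q π x t ≤ 1 / 4}

open Classical in
/-- `π`-probability of the set of states with the property `A`. -/
def prob {V : Type} [Fintype V] [DecidableEq V] (π : V → ℝ) (A : V → Prop) : ℝ :=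
  ∑ x, if A x then π x else 0

/-- `m` is a median of `τ_x` when `x` is drawn from `π`. -/
def IsMedian {V : Type} [Fintype V] [DecidableEq V] (Q : Matrix V V ℝ) (π : V → ℝ)
    (m : ℝ) : Prop := 1 / 2 ≤ prob π (fun x => tau Q π x ≤ m) ∧ 1 / 2 ≤ prob π (fun x => m ≤ tau Q π x)

/-- The spectral gap: the smallest real part of a nonzero (complex) eigenvalue of `-Q`. -/
def gap {V : Type} [Fintype V] [DecidableEq V] (Q : Matrix V V ℝ) : ℝ :=
  sInf {r : ℝ | ∃ z ∈ spectrum ℂ ((-Q).map Complex.ofReal), z ≠ 0 ∧ z.re = r}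

/-- The relaxation time. -/
def trel {V : Type} [Fintype V] [DecidableEq V] (Q : Matrix V V ℝ) : ℝ := 1 / gap Q

section

variable {G : Type} [AddCommGroup G] [Fintype G] [DecidableEq G] {S : Finset G} {T : ℕ}

/-- the uniform distribution -/
def unif (G : Type) [Fintype G] : G → ℝ := fun _ => 1 / (Fintype.card G : ℝ)

theorem d_inv (a : ℝ) (b : G) (x : G) (t : ℝ) :
    d (gen S a b) (unif G) x t = d (gen S a b) (unif G) 0 t := by
  unfold d law unif
  rw [tv_inv]

theorem tau_inv (a : ℝ) (b : G) (x : G) :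
    tau (gen S a b) (unif G) x = tau (gen S a b) (unif G) 0 := by
  unfold tau
  simp only [d_inv a b x]

theorem prob_const (A : G → Prop) (p : Prop) [Decidable p]
    (hA : ∀ x, A x ↔ p) : prob (unif G) A = if p then 1 else 0 := by
  have hG : (0 : ℝ) < Fintype.card G := by exact_mod_cast Fintype.card_pos
  simp only [prob, unif, hA]
  split_ifs
  · simp only [Finset.sum_const, Finset.card_univ, nsmul_eq_mul]
    field_simp
  · simp

theorem gen_apply (a : ℝ) (b x y : G) : gen S a b x y =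
    (stepM S x y - if x = y then 1 else 0) + a * (shiftM b x y - if x = y then 1 else 0) := by
  simp [gen, Matrix.one_apply]

theorem isChain (h : Helper394.Bad S T) {a : ℝ} (ha : 0 ≤ a) (b : G) :
    IsChain (gen S a b) (unif G) := by
  have hG : (0 : ℝ) < Fintype.card G := by exact_mod_cast Fintype.card_pos
  have hcol : ∀ (M : Matrix G G ℝ) (y : G), (∀ x z, M (x + z) (y + z) = M x y) →
      (∀ x y z, M (x + z) (y + z) = M x y) → ∑ x, M x y = ∑ x, M 0 x := by
    intro M y _ hM
    rw [← Equiv.sum_comp (Equiv.subLeft y) (fun x => M x y)]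
    refine Finset.sum_congr rfl fun x _ => ?_
    simp only [Equiv.subLeft_apply]
    have := hM 0 x (y - x)
    rw [zero_add] at this
    rw [← this]
    congr 1
    abel
  have hrow : ∀ x, ∑ y, gen S a b x y = 0 := by
    intro x
    simp only [gen_apply]
    rw [Finset.sum_add_distrib, ← Finset.mul_sum, Finset.sum_sub_distrib, Finset.sum_sub_distrib,
      row_step h, shiftM_row]
    simp
  refine ⟨?_, hrow, ?_, ?_, ?_, ?_⟩
  · intro x y hxy
    rw [gen_apply, if_neg hxy]
    have h1 := stepM_nonneg S x y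
    have h2 := shiftM_nonneg b x y
    have := mul_nonneg ha h2
    linarith
  · intro x y
    refine h.closed {z | Relation.ReflTransGen (fun u v => u ≠ v ∧ 0 < gen S a b u v) x z} x
      Relation.ReflTransGen.refl ?_ y
    intro z hz s hs
    have hs0 : s ≠ 0 := fun h0 => h.zero (h0 ▸ hs)
    have hne : z ≠ z + s := fun h0 => hs0 (by simpa using h0.symm)
    refine Relation.ReflTransGen.tail hz ⟨hne, ?_⟩
    rw [gen_apply, if_neg hne]
    have hSc : (0 : ℝ) < S.card := by exact_mod_cast h.nonempty.card_pos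
    have h1 : stepM S z (z + s) = 1 / (S.card : ℝ) := by
      unfold stepM
      rw [add_sub_cancel_left, if_pos hs]
    have h2 := shiftM_nonneg b z (z + s)
    have h3 := mul_nonneg ha h2
    have h4 : 0 < 1 / (S.card : ℝ) := by positivity
    rw [h1]
    linarith
  · intro x; unfold unif; positivity
  · simp only [unif, Finset.sum_const, Finset.card_univ, nsmul_eq_mul]
    field_simp
  · intro y
    rw [show (fun x => unif G x * gen S a b x y) = fun x => 1 / (Fintype.card G : ℝ) *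
      gen S a b x y from rfl, ← Finset.mul_sum, hcol (gen S a b) y
        (fun x z => gen_inv S a b x y z) (fun x y z => gen_inv S a b x y z), hrow, mul_zero]

theorem reversible_iff (h : Helper394.Bad S T) (a : ℝ) {b : G} (hb : b ≠ 0) (hb2 : b + b ≠ 0) :
    Reversible (gen S a b) (unif G) ↔ a = 0 := by
  have hG : (0 : ℝ) < Fintype.card G := by exact_mod_cast Fintype.card_pos
  have hsymm : ∀ x y, stepM S x y = stepM S y x := by
    intro x y
    have h2 : (y - x ∈ S) ↔ (x - y ∈ S) := by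
      constructor
      · intro h3; have := h.neg _ h3; rwa [neg_sub] at this
      · intro h3; have := h.neg _ h3; rwa [neg_sub] at this
    simp only [stepM, h2]
  constructor
  · intro hr
    have h1 := hr 0 b
    have h2 : gen S a b 0 b = gen S a b b 0 := by
      have h3 : 1 / (Fintype.card G : ℝ) * gen S a b 0 b =
        1 / (Fintype.card G : ℝ) * gen S a b b 0 := h1
      exact mul_left_cancel₀ (by positivity) h3
    rw [gen_apply, gen_apply, hsymm 0 b, if_neg hb.symm, if_neg hb] at h2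
    have e1 : shiftM b 0 b = 1 := by simp [shiftM]
    have e2 : shiftM b b 0 = 0 := by
      unfold shiftM
      rw [if_neg (fun h0 => hb2 h0.symm)]
    rw [e1, e2] at h2
    linarith
  · rintro rfl
    intro x y
    rw [gen_apply, gen_apply, hsymm x y]
    simp only [unif, zero_mul, add_zero, eq_comm]

end

theorem one_ne (n : ℕ) (h : 64 ≤ n) : (1 : ZMod n) ≠ 0 ∧ (1 : ZMod n) + 1 ≠ 0 := by
  have : Fact (1 < n) := ⟨by omega⟩
  refine ⟨one_ne_zero, ?_⟩
  have h2 : ((2 : ℕ) : ZMod n) ≠ 0 := by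
    intro h0
    rw [ZMod.natCast_eq_zero_iff] at h0
    have := Nat.le_of_dvd (by norm_num) h0
    omega
  intro h0
  apply h2
  push_cast
  rw [← h0]
  norm_num

/-- For every `c ≥ 0` there are irreducible continuous-time chains on `ℤ/N_n`, `N_n → ∞`
(reversible if and only if `c = 0`), with uniform stationary distribution, relaxation times at
most `4` and (unique) medians `τ n → ∞`, such that `d_{x_n}(s τ n) → 4^{-s}` for all starting
points and all `s ≥ 0`. Hence for every `ε ∈ (0,1/2)` the first probability of the question is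
eventually `0`, and for every `ε ∈ (0,1/8]` so is the second one. -/
theorem result (c : ℝ) (hc0 : 0 ≤ c) :
    ∃ (N : ℕ → ℕ) (_ : ∀ n, NeZero (N n))
      (Q : ∀ n, Matrix (ZMod (N n)) (ZMod (N n)) ℝ) (π : ∀ n, ZMod (N n) → ℝ) (τ : ℕ → ℝ),
      Tendsto N atTop atTop ∧
      (∀ n, IsChain (Q n) (π n)) ∧
      (∀ n, Reversible (Q n) (π n) ↔ c = 0) ∧
      (∀ n m, IsMedian (Q n) (π n) m ↔ m = τ n) ∧
      Tendsto τ atTop atTop ∧
      (∀ n, 0 < trel (Q n) ∧ trel (Q n) ≤ 4) ∧
      Tendsto (fun n => τ n / trel (Q n)) atTop atTop ∧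
      (∀ s : ℝ, 0 ≤ s → ∀ x : ∀ n, ZMod (N n),
        Tendsto (fun n => d (Q n) (π n) (x n) (s * τ n)) atTop (𝓝 ((4 : ℝ) ^ (-s)))) ∧
      (∀ ε : ℝ, 0 < ε → ε < 1 / 2 →
        ∀ᶠ n in atTop, prob (π n) (fun x => 1 - ε < d (Q n) (π n) x ((1 - ε) * τ n)) = 0) ∧
      (∀ ε : ℝ, 0 < ε → ε ≤ 1 / 8 →
        ∀ᶠ n in atTop, prob (π n) (fun x => d (Q n) (π n) x ((1 + ε) * τ n) < ε) = 0) := by
  obtain ⟨N, hN, S, w, hNn, hw1, hw2, hE⟩ := Y307.Prof.exists_seq
  have hB : ∀ n, Helper394.Bad (S n) (n + 64) := fun n =>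
    (hE n).bad (by omega) (by nlinarith) (by omega) (by push_cast; exact hw1 n)
      (by push_cast; exact hw2 n)
  let a : ℕ → ℝ := fun n => c * (1 / 2) ^ ((n + 64) ^ 2)
  have ha : ∀ n, 0 ≤ a n := fun n => by positivity
  let Q : ∀ n, Matrix (ZMod (N n)) (ZMod (N n)) ℝ := fun n => gen (S n) (a n) 1
  let π : ∀ n, ZMod (N n) → ℝ := fun n => unif (ZMod (N n))
  have hdx : ∀ n (x : ZMod (N n)) r, d (Q n) (π n) x r = d (Q n) (π n) 0 r :=
    fun n x r => d_inv (a n) 1 x r
  have hsq0 : Y307.Prof.CSq (fun n r => (1 / 2 : ℝ) * ∑ y, |H990R2.CT.H (stepM (S n)) r 0 y -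
        1 / (Fintype.card (ZMod (N n)) : ℝ)|) (fun n => 1 / w n ^ 2)
      (fun n => 1 / (1 - w n)) (fun n => (1 / 2) ^ ((n + 64) ^ 2)) (fun n => n + 64) := by
    refine Y307.Prof.csq_of hw1 hw2 _ ?_ ?_
    · intro n r hr
      exact (hE n).ct_low (by omega) (Y307.Prof.w_pos hw2 n) (Y307.Prof.w_lt hw1 n) (hB n)
        (stepM_mulVec (S n)) hr
    · intro n r hr
      exact (hE n).ct_up (by omega) (Y307.Prof.w_pos hw2 n) (Y307.Prof.w_lt hw1 n) (hB n)
        (stepM_mulVec (S n)) hr 0
  have hsq : Y307.Prof.CSq (fun n r => d (Q n) (π n) 0 r) (fun n => 1 / w n ^ 2)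
      (fun n => 1 / (1 - w n)) (fun n => (1 / 2) ^ ((n + 64) ^ 2) + 2 * a n)
      (fun n => n + 64) := by
    refine ⟨fun n r hr => ?_, fun n r hr => ?_, hsq0.tpos, hsq0.tlim, hsq0.clim, hsq0.Qlim,
      hsq0.Q1, fun n => by have := ha n; positivity, fun α => ?_⟩
    · exact low (hE n) (by omega) (Y307.Prof.w_pos hw2 n) (Y307.Prof.w_lt hw1 n) (hB n) (ha n) 1 hr
    · exact up (hE n) (by omega) (Y307.Prof.w_pos hw2 n) (Y307.Prof.w_lt hw1 n) (hB n) (ha n) 1 hr
    · have h1 := (hsq0.ηlim α).const_mul (1 + 2 * c)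
      rw [mul_zero] at h1
      refine h1.congr fun n => ?_
      simp only [a]
      ring
  have hτt : Tendsto (fun n => tau (Q n) (π n) 0 / (1 / (1 - w n))) atTop
      (𝓝 (Real.log 4)) := by
    have h1 := hsq.mixing (ε := 1 / 4) (by norm_num) (by norm_num)
    rw [one_div_one_div] at h1
    exact h1
  have hL : 0 < Real.log 4 := Real.log_pos (by norm_num)
  have hτ0 : ∀ n, 0 ≤ tau (Q n) (π n) 0 := fun n => Real.sInf_nonneg fun t ht => ht.1
  have hτ : Tendsto (fun n => tau (Q n) (π n) 0) atTop atTop := by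
    refine (hτt.pos_mul_atTop hL hsq.tlim).congr fun n => ?_
    exact div_mul_cancel₀ _ (hsq.tpos n).ne'
  have hprof : ∀ s : ℝ, 0 ≤ s →
      Tendsto (fun n => d (Q n) (π n) 0 (s * tau (Q n) (π n) 0)) atTop (𝓝 ((4 : ℝ) ^ (-s))) := by
    intro s hs
    have h1 : Tendsto (fun n => (s * tau (Q n) (π n) 0) / (1 / (1 - w n))) atTop
        (𝓝 (s * Real.log 4)) := by
      refine (hτt.const_mul s).congr fun n => ?_
      ring
    have h2 := hsq.profile (fun n => mul_nonneg hs (hτ0 n)) h1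
    have e : (4 : ℝ) ^ (-s) = Real.exp (-(s * Real.log 4)) := by
      rw [Real.rpow_def_of_pos (by norm_num)]
      congr 1
      ring
    rw [e]
    exact h2
  have hrel : ∀ n, 0 < trel (Q n) ∧ trel (Q n) ≤ 4 := by
    intro n
    have hN64 : 64 ≤ N n := by have := hNn n; omega
    have hge : 1 / 4 ≤ gap (Q n) := by
      obtain ⟨z, hz, hz0⟩ := spec_nonempty (hB n) (ha n) (one_ne (N n) hN64).1
      apply le_csInf
      · exact ⟨z.re, z, hz, hz0, rfl⟩
      · rintro r ⟨z, hz, hz0, rfl⟩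
        exact spec (hB n) (ha n) 1 z hz hz0
    refine ⟨one_div_pos.mpr (by linarith), ?_⟩
    rw [trel, div_le_iff₀ (by linarith)]
    linarith
  have hf1 : ∀ ε : ℝ, 0 < ε → ε < 1 / 2 →
      ∀ᶠ n in atTop, prob (π n) (fun x => 1 - ε < d (Q n) (π n) x ((1 - ε) * tau (Q n) (π n) 0))
        = 0 := by
    intro ε h0 h1
    have h2 : (4 : ℝ) ^ (-(1 - ε)) < 1 - ε := by
      have h4 : (4 : ℝ) ^ ε = (2 : ℝ) ^ (2 * ε) := by
        rw [Real.rpow_mul (by norm_num)]
        norm_num
      have h5 : (2 : ℝ) ^ (2 * ε) ≤ 1 + 2 * ε := by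
        have h6 := rpow_one_add_le_one_add_mul_self (s := 1) (by norm_num)
          (p := 2 * ε) (by linarith) (by linarith)
        norm_num at h6
        linarith
      have h7 : (4 : ℝ) ^ (-(1 - ε)) = (1 / 4) * (4 : ℝ) ^ ε := by
        rw [neg_sub, Real.rpow_sub (by norm_num), Real.rpow_one]
        ring
      rw [h7, h4]
      linarith
    filter_upwards [(hprof (1 - ε) (by linarith)).eventually (gt_mem_nhds h2)] with n hn
    have h3 := prob_const (fun x => 1 - ε <
      d (Q n) (π n) x ((1 - ε) * tau (Q n) (π n) 0)) False (fun x => by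
        rw [iff_false, not_lt, hdx]
        exact hn.le)
    rw [if_neg not_false] at h3
    exact h3
  have hf2 : ∀ ε : ℝ, 0 < ε → ε ≤ 1 / 8 →
      ∀ᶠ n in atTop, prob (π n) (fun x => d (Q n) (π n) x ((1 + ε) * tau (Q n) (π n) 0) < ε)
        = 0 := by
    intro ε h0 h1
    have h2 : ε < (4 : ℝ) ^ (-(1 + ε)) := by
      have h3 : (4 : ℝ) ^ (-(3 / 2 : ℝ)) = 1 / 8 := by
        rw [Real.rpow_neg (by norm_num), show (4 : ℝ) = 2 ^ (2 : ℝ) by norm_num,
          ← Real.rpow_mul (by norm_num)]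
        norm_num
      have h4 : (4 : ℝ) ^ (-(3 / 2 : ℝ)) < (4 : ℝ) ^ (-(1 + ε)) :=
        Real.rpow_lt_rpow_of_exponent_lt (by norm_num) (by linarith)
      linarith
    filter_upwards [(hprof (1 + ε) (by linarith)).eventually (lt_mem_nhds h2)] with n hn
    have h3 := prob_const (fun x =>
      d (Q n) (π n) x ((1 + ε) * tau (Q n) (π n) 0) < ε) False (fun x => by
        rw [iff_false, not_lt, hdx]
        exact hn.le)
    rw [if_neg not_false] at h3
    exact h3
  refine ⟨N, hN, Q, π, fun n => tau (Q n) (π n) 0, ?_, fun n => isChain (hB n) (ha n) 1,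
    ?_, ?_, hτ, hrel, ?_, ?_, hf1, hf2⟩
  · refine tendsto_atTop_mono (fun n => ?_) tendsto_id
    have := hNn n
    simp only [id]
    omega
  · intro n
    have hN64 : 64 ≤ N n := by have := hNn n; omega
    rw [show Reversible (Q n) (π n) = Reversible (gen (S n) (a n) 1) (unif (ZMod (N n))) from rfl,
      reversible_iff (hB n) (a n) (one_ne (N n) hN64).1 (one_ne (N n) hN64).2]
    simp [a]
  · intro n m
    classical
    rw [IsMedian, prob_const _ (tau (Q n) (π n) 0 ≤ m)
        (fun x => by rw [show tau (Q n) (π n) x = tau (Q n) (π n) 0 from tau_inv (a n) 1 x]),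
      prob_const _ (m ≤ tau (Q n) (π n) 0)
        (fun x => by rw [show tau (Q n) (π n) x = tau (Q n) (π n) 0 from tau_inv (a n) 1 x])]
    constructor
    · rintro ⟨h1, h2⟩
      have h3 : tau (Q n) (π n) 0 ≤ m := by
        by_contra hcon
        rw [if_neg hcon] at h1
        norm_num at h1
      have h4 : m ≤ tau (Q n) (π n) 0 := by
        by_contra hcon
        rw [if_neg hcon] at h2
        norm_num at h2
      exact le_antisymm h4 h3
    · rintro rfl
      rw [if_pos le_rfl]
      norm_num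
  · refine tendsto_atTop_mono (fun n => ?_) (hτ.atTop_div_const (by norm_num : (0 : ℝ) < 4))
    exact div_le_div_of_nonneg_left (hτ0 n) (hrel n).1 (hrel n).2
  · intro s hs x
    refine (hprof s hs).congr fun n => ?_
    rw [hdx n (x n)]

end

end Pool.Agent.Results.MP_d1aba8_pr.GeneralChainsNoTypicalCutoff
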